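import Pool.Agent.W398.GR.Sector

/-!
Project GR (helper78), task GR-2 (helper398): lattice points.
-/

set_option autoImplicit false

namespace Pool.Agent.W398.GR

open Finset MeasureTheory
open Pool.Agent.W78.GR

variable {t c : ℤ} {η : (Qd t c)ˣ}

lemma sec_full (U : Un t c η) (X : ℝ) (d : ℕ) (r : ℤ) :
    sec η X (rg η) d r = (ball η X).filter (lat d r) := by
  unfold sec
  rw [Finset.filter_eq_self]
  intro z hz
  rw [mem_filter, U.mem_ball] at hz
  rw [div_self U.rg_pos.ne', mul_one]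
  exact hz.1.1.2.2

theorem lat1 (U : Un t c η) (X : ℝ) (d : ℕ) (r : ℤ) (hX : 1 ≤ X) (hd : 1 ≤ d) :
    |(((ball η X).filter (lat d r)).card : ℝ) - kap η * X / d| ≤
      (Real.sinh (rg η) + 2) * Real.sqrt X := by
  rw [← sec_full U]
  exact card_sec U hX U.rg_pos le_rfl d r hd

/-- the number of elements of the lattice of norm `n` -/
noncomputable def rr (η : (Qd t c)ˣ) (d : ℕ) (r : ℤ) (n : ℕ) : ℝ :=
  ((((ball η n).filter (lat d r)).filter (fun z => nm z = n)).card : ℝ)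

lemma filter_ball (U : Un t c η) (d : ℕ) (r : ℤ) (n : ℕ) (X : ℝ) (hn : (n : ℝ) ≤ X) :
    ((ball η X).filter (lat d r)).filter (fun z => nm z = n) =
      ((ball η n).filter (lat d r)).filter (fun z => nm z = n) := by
  ext z
  rw [mem_filter, mem_filter, mem_filter, mem_filter, U.mem_ball, U.mem_ball]
  constructor
  · rintro ⟨⟨⟨h1, _⟩, h2⟩, h3⟩
    exact ⟨⟨⟨h1, by rw [h3]⟩, h2⟩, h3⟩
  · rintro ⟨⟨⟨h1, _⟩, h2⟩, h3⟩
    exact ⟨⟨⟨h1, by rw [h3]; exact hn⟩, h2⟩, h3⟩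

lemma sum_rr (U : Un t c η) (d : ℕ) (r : ℤ) (X : ℝ) (hX : 0 ≤ X) :
    ∑ n ∈ Icc 0 ⌊X⌋₊, rr η d r n = (((ball η X).filter (lat d r)).card : ℝ) := by
  have h1 : ∀ z ∈ (ball η X).filter (lat d r), nm z ∈ Icc 0 ⌊X⌋₊ := by
    intro z hz
    rw [mem_filter, U.mem_ball] at hz
    rw [Finset.mem_Icc]
    exact ⟨Nat.zero_le _, Nat.le_floor hz.1.2⟩
  rw [Finset.card_eq_sum_card_fiberwise h1]
  push_cast
  refine Finset.sum_congr rfl fun n hn => ?_
  rw [Finset.mem_Icc] at hn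
  unfold rr
  rw [filter_ball U d r n X ((Nat.cast_le.2 hn.2).trans (Nat.floor_le hX))]

lemma sum_ann (U : Un t c η) (d : ℕ) (r : ℤ) (f : ℕ → ℝ) (A B : ℝ) (hA : 0 ≤ A)
    (hAB : A ≤ B) :
    ∑ z ∈ (ann η A B).filter (lat d r), f (nm z) =
      ∑ n ∈ Ioc ⌊A⌋₊ ⌊B⌋₊, f n * rr η d r n := by
  have h1 : ∀ z ∈ (ann η A B).filter (lat d r), nm z ∈ Ioc ⌊A⌋₊ ⌊B⌋₊ := by
    intro z hz
    rw [mem_filter, U.mem_ann] at hz
    rw [Finset.mem_Ioc]
    exact ⟨(Nat.floor_lt hA).2 hz.1.2.1, Nat.le_floor hz.1.2.2⟩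
  rw [← Finset.sum_fiberwise_of_maps_to h1]
  refine Finset.sum_congr rfl fun n hn => ?_
  rw [Finset.mem_Ioc] at hn
  have h2 : ((ann η A B).filter (lat d r)).filter (fun z => nm z = n) =
      ((ball η n).filter (lat d r)).filter (fun z => nm z = n) := by
    ext z
    rw [mem_filter, mem_filter, mem_filter, mem_filter, U.mem_ball, U.mem_ann]
    constructor
    · rintro ⟨⟨⟨h1, _⟩, h2⟩, h3⟩
      exact ⟨⟨⟨h1, by rw [h3]⟩, h2⟩, h3⟩
    · rintro ⟨⟨⟨h1, _⟩, h2⟩, h3⟩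
      refine ⟨⟨⟨h1, ?_, ?_⟩, h2⟩, h3⟩
      · rw [h3]
        exact (Nat.floor_lt hA).1 hn.1
      · rw [h3]
        exact (Nat.cast_le.2 hn.2).trans (Nat.floor_le (hA.trans hAB))
  rw [h2]
  have h3 : ∀ z ∈ ((ball η n).filter (lat d r)).filter (fun z => nm z = n),
      f (nm z) = f n := by
    intro z hz
    rw [(Finset.mem_filter.1 hz).2]
  rw [Finset.sum_congr rfl h3, Finset.sum_const, nsmul_eq_mul, mul_comm]
  rfl

/-- task GR-2 -/
theorem lat (U : Un t c η) : S_LAT t c η := by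
  have hsh : 0 < Real.sinh (rg η) := Real.sinh_pos_iff.2 U.rg_pos
  refine ⟨4 * (Real.sinh (rg η) + 2), by positivity, ?_, ?_⟩
  · intro X d r hX hd
    refine le_trans ?_ ((lat1 U X d r hX hd).trans ?_)
    · exact le_of_eq (by congr!)
    have h2 := Real.sqrt_nonneg X
    nlinarith
  · intro A B d r hA hAB hd
    have h := Pool.Agent.W45.GA.partial_sum (rr η d r) (kap η / d) (Real.sinh (rg η) + 2)
      (by positivity) (by
      intro X hX
      rw [sum_rr U d r X (by linarith)]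
      have := lat1 U X d r hX hd
      rw [show kap η / d * X = kap η * X / d by ring]
      exact this) A B hA hAB
    rw [← sum_ann U d r (fun n => 1 / (n : ℝ)) A B (by linarith) hAB] at h
    refine le_trans (le_of_eq ?_) h
    congr!

end Pool.Agent.W398.GR
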