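import Pool.Agent.W398.GR.Sector

/-!
Project GR (helper78), task GR-6 (helper398): angular sums over lattices for small frequencies, by
partial summation over the angle from the lattice point count in sectors.
-/

set_option autoImplicit false

namespace Pool.Agent.W398.GR

open Finset MeasureTheory
open Pool.Agent.W78.GR

variable {t c : ℤ} {η : (Qd t c)ˣ}

/-- the derivative of `exp (i k α)` -/
noncomputable def fk (k : ℤ) (α : ℝ) : ℂ :=
  (k : ℂ) * Complex.I * Complex.exp (((k * α : ℝ) : ℂ) * Complex.I)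

lemma continuous_fk (k : ℤ) : Continuous (fk k) := by
  unfold fk
  fun_prop

lemma norm_fk (k : ℤ) (α : ℝ) : ‖fk k α‖ = |(k : ℝ)| := by
  unfold fk
  rw [norm_mul, norm_mul, Complex.norm_I, mul_one, Complex.norm_exp_ofReal_mul_I, mul_one]
  rw [← Complex.ofReal_intCast, Complex.norm_real, Real.norm_eq_abs]

lemma hasDerivAt_ek (k : ℤ) (α : ℝ) :
    HasDerivAt (fun α : ℝ => Complex.exp (((k * α : ℝ) : ℂ) * Complex.I)) (fk k α) α := by
  have h1 : HasDerivAt (fun α : ℝ => ((k * α : ℝ) : ℂ) * Complex.I) ((k : ℂ) * Complex.I) α := by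
    have h2 : HasDerivAt (fun α : ℝ => (k : ℝ) * α) (k : ℝ) α := by
      simpa using (hasDerivAt_id α).const_mul (k : ℝ)
    have h3 := (h2.ofReal_comp).mul_const Complex.I
    simpa using h3
  have h4 := h1.cexp
  unfold fk
  refine h4.congr_deriv ?_
  ring

lemma integral_fk (k : ℤ) (a b : ℝ) :
    ∫ α in a..b, fk k α = Complex.exp (((k * b : ℝ) : ℂ) * Complex.I) -
      Complex.exp (((k * a : ℝ) : ℂ) * Complex.I) :=
  intervalIntegral.integral_eq_sub_of_hasDerivAt (fun α _ => hasDerivAt_ek k α)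
    ((continuous_fk k).intervalIntegrable _ _)

lemma ek_two_pi (k : ℤ) : Complex.exp (((k * (2 * Real.pi) : ℝ) : ℂ) * Complex.I) = 1 := by
  rw [Complex.exp_eq_one_iff]
  exact ⟨k, by push_cast; ring⟩

lemma integral_mul_fk (k : ℤ) (hk : k ≠ 0) :
    ∫ α in (0 : ℝ)..(2 * Real.pi), ((α / (2 * Real.pi) : ℝ) : ℂ) * fk k α = 1 := by
  have hkC : (k : ℂ) ≠ 0 := by exact_mod_cast hk
  have hpi : (Real.pi : ℂ) ≠ 0 := by exact_mod_cast Real.pi_ne_zero
  have hd : ∀ α : ℝ, HasDerivAt (fun α : ℝ => ((α / (2 * Real.pi) : ℝ) : ℂ) *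
      Complex.exp (((k * α : ℝ) : ℂ) * Complex.I) - 1 / (2 * Real.pi * (k * Complex.I)) *
      Complex.exp (((k * α : ℝ) : ℂ) * Complex.I))
      (((α / (2 * Real.pi) : ℝ) : ℂ) * fk k α) α := by
    intro α
    have h1 : HasDerivAt (fun α : ℝ => α / (2 * Real.pi)) (1 / (2 * Real.pi)) α :=
      (hasDerivAt_id α).div_const _
    have h2 := (h1.ofReal_comp.mul (hasDerivAt_ek k α)).sub
      ((hasDerivAt_ek k α).const_mul (1 / (2 * Real.pi * (k * Complex.I))))
    refine h2.congr_deriv ?_
    unfold fk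
    push_cast
    field_simp
    ring
  rw [intervalIntegral.integral_eq_sub_of_hasDerivAt (fun α _ => hd α)]
  · simp only [ek_two_pi]
    have hpi2 : (2 * Real.pi : ℝ) ≠ 0 := by positivity
    rw [div_self hpi2]
    simp
  · apply Continuous.intervalIntegrable
    have := continuous_fk k
    fun_prop

/-- the exponential sum over a finite set of angles in terms of the counting function -/
lemma sum_exp {α : Type} (s : Finset α) (a : α → ℝ) (ha : ∀ z ∈ s, 0 ≤ a z ∧ a z < 2 * Real.pi)
    (k : ℤ) (hk : k ≠ 0) (K B : ℝ)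
    (hB : ∀ x : ℝ, 0 < x → x ≤ 2 * Real.pi →
      |((open scoped Classical in s.filter (fun z => a z < x)).card : ℝ) -
        K * (x / (2 * Real.pi))| ≤ B) :
    ‖∑ z ∈ s, Complex.exp (((k * a z : ℝ) : ℂ) * Complex.I)‖ ≤ B + 2 * Real.pi * |(k : ℝ)| * B := by
  classical
  have hpi := Real.pi_pos
  have hpi2 : (0 : ℝ) < 2 * Real.pi := by positivity
  set S : ℝ := ((s.card : ℕ) : ℝ) with hS
  -- the counting function at `2π`
  have hfull : |S - K| ≤ B := by
    have h1 := hB (2 * Real.pi) hpi2 le_rfl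
    rw [div_self hpi2.ne', mul_one] at h1
    have h2 : s.filter (fun z => a z < 2 * Real.pi) = s := by
      rw [Finset.filter_eq_self]
      exact fun z hz => (ha z hz).2
    refine le_trans (le_of_eq ?_) h1
    congr 3
    rw [hS]
    congr 2
    rw [← h2]
    congr!
    exact h2.symm
  have h1 : ∀ z ∈ s, Complex.exp (((k * a z : ℝ) : ℂ) * Complex.I) = 1 +
      ∫ x in (0 : ℝ)..(2 * Real.pi), Set.indicator {x | x ≤ a z} (fk k) x := by
    intro z hz
    rw [intervalIntegral.integral_indicator ⟨(ha z hz).1, (ha z hz).2.le⟩, integral_fk]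
    simp
  have hint : ∀ b : ℝ, IntervalIntegrable (Set.indicator {x | x ≤ b} (fk k)) volume 0
      (2 * Real.pi) := by
    intro b
    rw [intervalIntegrable_iff]
    have := (continuous_fk k).intervalIntegrable (μ := volume) 0 (2 * Real.pi)
    rw [intervalIntegrable_iff] at this
    exact this.indicator measurableSet_Iic
  rw [Finset.sum_congr rfl h1, Finset.sum_add_distrib,
    ← intervalIntegral.integral_finsetSum (fun z _ => hint (a z))]
  have h2 : ∫ x in (0 : ℝ)..(2 * Real.pi), ∑ z ∈ s, Set.indicator {x | x ≤ a z} (fk k) x =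
      -(K : ℂ) - ∫ x in (0 : ℝ)..(2 * Real.pi),
        ((((s.filter (fun z => a z < x)).card : ℝ) - K * (x / (2 * Real.pi)) : ℝ) : ℂ) * fk k x := by
    have h3 : ∀ x : ℝ, ∑ z ∈ s, Set.indicator {x | x ≤ a z} (fk k) x =
        (S : ℂ) * fk k x - (K : ℂ) * (((x / (2 * Real.pi) : ℝ) : ℂ) * fk k x) -
        ((((s.filter (fun z => a z < x)).card : ℝ) - K * (x / (2 * Real.pi)) : ℝ) : ℂ) * fk k x := by
      intro x
      have h4 : ∀ z ∈ s, Set.indicator {x | x ≤ a z} (fk k) x =
          fk k x - (if a z < x then fk k x else 0) := by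
        intro z _
        rw [Set.indicator_apply]
        by_cases h5 : x ≤ a z
        · rw [if_pos (by exact h5), if_neg (not_lt.2 h5), sub_zero]
        · rw [if_neg (by exact h5), if_pos (not_le.1 h5), sub_self]
      rw [Finset.sum_congr rfl h4, Finset.sum_sub_distrib, Finset.sum_const, nsmul_eq_mul,
        ← Finset.sum_filter, Finset.sum_const, nsmul_eq_mul, hS]
      push_cast
      ring
    have i1 : IntervalIntegrable (fun x => (S : ℂ) * fk k x) volume 0 (2 * Real.pi) := by
      apply Continuous.intervalIntegrable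
      have := continuous_fk k
      fun_prop
    have i2 : IntervalIntegrable (fun x => (K : ℂ) * (((x / (2 * Real.pi) : ℝ) : ℂ) * fk k x))
        volume 0 (2 * Real.pi) := by
      apply Continuous.intervalIntegrable
      have := continuous_fk k
      fun_prop
    have i3 : IntervalIntegrable (fun x =>
        ((((s.filter (fun z => a z < x)).card : ℝ) - K * (x / (2 * Real.pi)) : ℝ) : ℂ) * fk k x)
        volume 0 (2 * Real.pi) := by
      have i4 : IntervalIntegrable (fun x => ∑ z ∈ s, Set.indicator {x | x ≤ a z} (fk k) x) volume 0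
          (2 * Real.pi) := by
        have := IntervalIntegrable.sum s (fun z _ => hint (a z))
        refine this.congr ?_
        intro x _
        simp
      have i5 := (i1.sub i2).sub i4
      refine i5.congr ?_
      intro x _
      simp only [h3]
      ring
    rw [intervalIntegral.integral_congr (fun x _ => h3 x),
      intervalIntegral.integral_sub (i1.sub i2) i3, intervalIntegral.integral_sub i1 i2,
      intervalIntegral.integral_const_mul, intervalIntegral.integral_const_mul, integral_fk,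
      integral_mul_fk k hk, ek_two_pi]
    simp
  rw [h2]
  have h6 : ‖∫ x in (0 : ℝ)..(2 * Real.pi),
      ((((s.filter (fun z => a z < x)).card : ℝ) - K * (x / (2 * Real.pi)) : ℝ) : ℂ) * fk k x‖ ≤
      (B * |(k : ℝ)|) * |2 * Real.pi - 0| := by
    apply intervalIntegral.norm_integral_le_of_norm_le_const
    intro x hx
    rw [Set.uIoc_of_le hpi2.le] at hx
    rw [norm_mul, norm_fk, Complex.norm_real, Real.norm_eq_abs]
    apply mul_le_mul_of_nonneg_right _ (abs_nonneg _)
    refine le_trans (le_of_eq ?_) (hB x hx.1 hx.2)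
    congr!
  rw [sub_zero, abs_of_pos hpi2] at h6
  have h7 : ‖∑ z ∈ s, (1 : ℂ) + (-(K : ℂ))‖ ≤ B := by
    rw [Finset.sum_const, nsmul_eq_mul, mul_one]
    have : ((s.card : ℕ) : ℂ) + (-(K : ℂ)) = ((S - K : ℝ) : ℂ) := by
      rw [hS]
      push_cast
      ring
    rw [this, Complex.norm_real, Real.norm_eq_abs]
    exact hfull
  set I1 := ∫ x in (0 : ℝ)..(2 * Real.pi),
      ((((s.filter (fun z => a z < x)).card : ℝ) - K * (x / (2 * Real.pi)) : ℝ) : ℂ) * fk k x
  calc ‖∑ z ∈ s, (1 : ℂ) + (-(K : ℂ) - I1)‖ = ‖(∑ z ∈ s, (1 : ℂ) + (-(K : ℂ))) - I1‖ := by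
        congr 1
        ring
    _ ≤ ‖∑ z ∈ s, (1 : ℂ) + (-(K : ℂ))‖ + ‖I1‖ := norm_sub_le _ _
    _ ≤ B + 2 * Real.pi * |(k : ℝ)| * B := by linarith

/-- task GR-6, first part -/
theorem ang2 (U : Un t c η) : S_ANG2 t c η := by
  intro d r hd
  have hsh : 0 < Real.sinh (rg η) := Real.sinh_pos_iff.2 U.rg_pos
  have hpi := Real.pi_pos
  have hR := U.rg_pos
  refine ⟨(1 + 2 * Real.pi) * (Real.sinh (rg η) + 2), by positivity, fun X k hX hk => ?_⟩
  have hk1 : (1 : ℝ) ≤ |(k : ℝ)| := by
    have : 1 ≤ |k| := Int.one_le_abs hk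
    exact_mod_cast this
  have h := sum_exp ((ball η X).filter (lat d r)) (ang η) (fun z hz => by
      rw [mem_filter, U.mem_ball] at hz
      exact hz.1.1.2) k hk (kap η * X / d) ((Real.sinh (rg η) + 2) * Real.sqrt X) (by
      intro x hx hx2
      have h1 : 0 < rg η * (x / (2 * Real.pi)) := by positivity
      have h2 : rg η * (x / (2 * Real.pi)) ≤ rg η := by
        have : x / (2 * Real.pi) ≤ 1 := (div_le_one (by positivity)).2 hx2
        nlinarith
      have h3 := card_sec U hX h1 h2 d r hd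
      have h4 : 2 * Real.pi * (rg η * (x / (2 * Real.pi)) / rg η) = x := by field_simp
      unfold sec at h3
      rw [h4] at h3
      refine le_trans (le_of_eq ?_) h3
      congr 1
      unfold kap
      congr 1
      ring)
  have hs0 := Real.sqrt_nonneg X
  calc ‖∑ z ∈ (ball η X).filter (lat d r), ps η k z‖
      ≤ (Real.sinh (rg η) + 2) * Real.sqrt X + 2 * Real.pi * |(k : ℝ)| *
          ((Real.sinh (rg η) + 2) * Real.sqrt X) := h
    _ ≤ |(k : ℝ)| * ((Real.sinh (rg η) + 2) * Real.sqrt X) + 2 * Real.pi * |(k : ℝ)| *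
          ((Real.sinh (rg η) + 2) * Real.sqrt X) := by
        have : 0 ≤ (Real.sinh (rg η) + 2) * Real.sqrt X := by positivity
        nlinarith
    _ = (1 + 2 * Real.pi) * (Real.sinh (rg η) + 2) * |(k : ℝ)| * Real.sqrt X := by ring

/-- task GR-6, second part -/
theorem ang_of : S_ANG1 t c η → S_ANG2 t c η → S_ANG t c η := by
  intro h1 h2 d r M hd
  obtain ⟨δ, hδ, C1, hC1, h1⟩ := h1 d r M hd
  obtain ⟨C2, hC2, h2⟩ := h2 d r hd
  refine ⟨min δ (1 / 4), by positivity, 2 * C1 + C2, by positivity, fun X k hX hk hkX => ?_⟩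
  have hX0 : 0 < X := by linarith
  set e : ℝ := min δ (1 / 4) with he
  have hk1 : (1 : ℝ) ≤ |(k : ℝ)| := by
    have : 1 ≤ |k| := Int.one_le_abs hk
    exact_mod_cast this
  have hpos : 0 < X ^ (1 - e) := Real.rpow_pos_of_pos hX0 _
  rcases le_or_gt (X ^ (1 / 4 : ℝ)) |(k : ℝ)| with h | h
  · have h3 := h1 X k hX hk hkX
    have h4 : X ^ (1 - δ) ≤ X ^ (1 - e) := by
      apply Real.rpow_le_rpow_of_exponent_le hX
      have := min_le_left δ (1 / 4)
      linarith
    have h5 : X / |(k : ℝ)| ≤ X ^ (1 - e) := by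
      calc X / |(k : ℝ)| ≤ X / X ^ (1 / 4 : ℝ) :=
            div_le_div_of_nonneg_left hX0.le (Real.rpow_pos_of_pos hX0 _) h
        _ = X ^ (1 - 1 / 4 : ℝ) := by
            rw [Real.rpow_sub hX0, Real.rpow_one]
        _ ≤ X ^ (1 - e) := by
            apply Real.rpow_le_rpow_of_exponent_le hX
            have := min_le_right δ (1 / 4)
            linarith
    calc _ ≤ C1 * (X ^ (1 - δ) + X / |(k : ℝ)|) := h3
      _ ≤ C1 * (X ^ (1 - e) + X ^ (1 - e)) := by
          apply mul_le_mul_of_nonneg_left _ hC1.le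
          linarith
      _ ≤ (2 * C1 + C2) * X ^ (1 - e) := by nlinarith
  · have h3 := h2 X k hX hk
    have h5 : |(k : ℝ)| * Real.sqrt X ≤ X ^ (1 - e) := by
      calc |(k : ℝ)| * Real.sqrt X ≤ X ^ (1 / 4 : ℝ) * X ^ (1 / 2 : ℝ) := by
            rw [Real.sqrt_eq_rpow]
            exact mul_le_mul_of_nonneg_right h.le (Real.rpow_nonneg hX0.le _)
        _ = X ^ (1 - 1 / 4 : ℝ) := by
            rw [← Real.rpow_add hX0]; norm_num
        _ ≤ X ^ (1 - e) := by
            apply Real.rpow_le_rpow_of_exponent_le hX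
            have := min_le_right δ (1 / 4)
            linarith
    calc _ ≤ C2 * |(k : ℝ)| * Real.sqrt X := h3
      _ = C2 * (|(k : ℝ)| * Real.sqrt X) := by ring
      _ ≤ C2 * X ^ (1 - e) := mul_le_mul_of_nonneg_left h5 hC2.le
      _ ≤ (2 * C1 + C2) * X ^ (1 - e) := by nlinarith

end Pool.Agent.W398.GR
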