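import Pool.Agent.W78.GR.Basic
import Pool.Agent.W45.GA.Lat

/-!
Project GR (helper78), tasks GR-2 and GR-6 (helper398): lattice points in sectors
`0 ≤ ang z < α` of the fundamental domain.
-/

set_option autoImplicit false

namespace Pool.Agent.W398.GR

open Finset MeasureTheory
open Pool.Agent.W78.GR

/-- the integers in a half-open interval in a residue class -/
lemma row_card (α β : ℝ) (d : ℕ) (hd : 1 ≤ d) (m : ℤ) :
    |((((Ioc ⌊α⌋ ⌊β⌋).filter (fun x : ℤ => (d : ℤ) ∣ x + m)).card : ℕ) : ℝ) -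
      max (β - α) 0 / d| ≤ 1 := by
  have hd0 : (0 : ℝ) < d := by exact_mod_cast hd
  have hdz : (0 : ℤ) < d := by exact_mod_cast hd
  rcases le_or_gt α β with hab | hab
  · rw [max_eq_left (by linarith)]
    set u : ℝ := (α + m) / d with hu
    set v : ℝ := (β + m) / d with hv
    have huv : u ≤ v := by
      rw [hu, hv]
      exact div_le_div_of_nonneg_right (by linarith) hd0.le
    have hcard : ((Ioc ⌊α⌋ ⌊β⌋).filter (fun x : ℤ => (d : ℤ) ∣ x + m)).card =
        (Ioc ⌊u⌋ ⌊v⌋).card := by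
      symm
      refine Finset.card_bij (fun k _ => (d : ℤ) * k - m) ?_ ?_ ?_
      · intro k hk
        rw [mem_Ioc, Int.floor_lt, Int.le_floor, hu, hv, div_lt_iff₀ hd0, le_div_iff₀ hd0] at hk
        rw [mem_filter, mem_Ioc, Int.floor_lt, Int.le_floor]
        push_cast
        refine ⟨⟨by linarith [hk.1], by linarith [hk.2]⟩, ⟨k, by ring⟩⟩
      · intro k _ l _ h
        have h1 : (d : ℤ) * k = (d : ℤ) * l := by
          have := h
          linarith
        exact mul_left_cancel₀ hdz.ne' h1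
      · intro x hx
        rw [mem_filter, mem_Ioc, Int.floor_lt, Int.le_floor] at hx
        obtain ⟨⟨h1, h2⟩, ⟨k, hk⟩⟩ := hx
        have hkR : (x : ℝ) + m = d * k := by exact_mod_cast hk
        refine ⟨k, ?_, by linarith⟩
        rw [mem_Ioc, Int.floor_lt, Int.le_floor, hu, hv, div_lt_iff₀ hd0, le_div_iff₀ hd0]
        constructor <;> nlinarith
    rw [hcard, Int.card_Ioc]
    have h1 := Int.lt_floor_add_one v
    have h2 := Int.lt_floor_add_one u
    have h3 := Int.floor_le v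
    have h4 := Int.floor_le u
    have h5 : (0 : ℤ) ≤ ⌊v⌋ - ⌊u⌋ := by
      have := Int.floor_mono huv
      omega
    have h6 : (((⌊v⌋ - ⌊u⌋).toNat : ℕ) : ℝ) = (⌊v⌋ : ℝ) - ⌊u⌋ := by
      have : (((⌊v⌋ - ⌊u⌋).toNat : ℕ) : ℤ) = ⌊v⌋ - ⌊u⌋ := Int.toNat_of_nonneg h5
      exact_mod_cast this
    rw [h6]
    have h7 : (β - α) / d = v - u := by
      rw [hu, hv]
      ring
    rw [h7, abs_le]
    constructor <;> linarith
  · rw [max_eq_right (by linarith)]
    have h1 : Ioc ⌊α⌋ ⌊β⌋ = ∅ := by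
      rw [Finset.Ioc_eq_empty_iff, not_lt]
      exact Int.floor_mono hab.le
    rw [h1]
    simp

variable {t c : ℤ} {η : (Qd t c)ˣ}

/-- half of the height times the square root of the discriminant -/
noncomputable def hh (t c : ℤ) (y : ℝ) : ℝ := y * Real.sqrt ((t : ℝ) ^ 2 - 4 * c) / 2

/-- left end point of a row (up to the shift) -/
noncomputable def la (t c : ℤ) (θ y : ℝ) : ℝ := hh t c y * (Real.cosh θ / Real.sinh θ)

/-- right end point of a row (up to the shift) -/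
noncomputable def ra (t c : ℤ) (X y : ℝ) : ℝ := Real.sqrt (X + hh t c y ^ 2)

/-- the sector condition in terms of the embeddings -/
lemma ang_lt_iff (U : Un t c η) {z : Qd t c} (hz : tp z) (θ : ℝ) :
    ang η z < 2 * Real.pi * (θ / rg η) ↔ s1 z < Real.exp (2 * θ) * s2 z := by
  have hR := U.rg_pos
  have hpi := Real.pi_pos
  have hpos : 0 < s1 z / s2 z := div_pos hz.1 hz.2
  unfold ang
  have e3 : 2 * Real.pi * (θ / rg η) = Real.pi / rg η * (2 * θ) := by field_simp
  rw [e3, mul_lt_mul_iff_right₀ (div_pos hpi hR)]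
  rw [Real.log_lt_iff_lt_exp hpos, div_lt_iff₀ hz.2]

lemma ang_nonneg_iff (U : Un t c η) {z : Qd t c} (hz : tp z) : 0 ≤ ang η z ↔ 0 ≤ z.im := by
  have hR := U.rg_pos
  have hpi := Real.pi_pos
  have hpos : 0 < s1 z / s2 z := div_pos hz.1 hz.2
  unfold ang
  rw [mul_nonneg_iff_of_pos_left (div_pos hpi hR), Real.log_nonneg_iff hpos, one_le_div hz.2,
    ← sub_nonneg, s1_sub_s2, mul_nonneg_iff_of_pos_right (sd_pos U.disc)]
  exact Int.cast_nonneg_iff

lemma exp_sub (θ : ℝ) : Real.exp (2 * θ) - 1 = 2 * Real.exp θ * Real.sinh θ := by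
  rw [Real.sinh_eq, Real.exp_neg]
  have : Real.exp (2 * θ) = Real.exp θ * Real.exp θ := by rw [← Real.exp_add]; congr 1; ring
  rw [this]
  field_simp

lemma exp_add_one (θ : ℝ) : Real.exp (2 * θ) + 1 = 2 * Real.exp θ * Real.cosh θ := by
  rw [Real.cosh_eq, Real.exp_neg]
  have : Real.exp (2 * θ) = Real.exp θ * Real.exp θ := by rw [← Real.exp_add]; congr 1; ring
  rw [this]
  field_simp

/-- the elements of a sector, row by row -/
lemma mem_sector (U : Un t c η) {X : ℝ} {θ : ℝ} (hθ : 0 < θ) (hθR : θ ≤ rg η)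
    (z : Qd t c) :
    (z ∈ ball η X ∧ ang η z < 2 * Real.pi * (θ / rg η)) ↔
      0 ≤ z.im ∧ la t c θ z.im < z.re + t * z.im / 2 ∧ z.re + t * z.im / 2 ≤ ra t c X z.im := by
  have hR := U.rg_pos
  have hsd := sd_pos U.disc
  have hsh : 0 < Real.sinh θ := Real.sinh_pos_iff.2 hθ
  have hch : Real.sinh θ < Real.cosh θ := by
    have := Real.cosh_sub_sinh θ
    have := Real.exp_pos (-θ)
    linarith
  have he := Real.exp_pos θ
  -- the embeddings
  set σ : ℝ := z.re + t * z.im / 2 with hσ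
  have e1 : s1 z = σ + hh t c z.im := by unfold s1 hh; rw [hσ]
  have e2 : s2 z = σ - hh t c z.im := by unfold s2 hh; rw [hσ]
  have hcond : 0 ≤ hh t c z.im → ((s1 z < Real.exp (2 * θ) * s2 z) ↔ la t c θ z.im < σ) := by
    intro _
    rw [e1, e2]
    unfold la
    have e3 : (σ + hh t c z.im < Real.exp (2 * θ) * (σ - hh t c z.im)) ↔
        (Real.exp (2 * θ) + 1) * hh t c z.im < (Real.exp (2 * θ) - 1) * σ := by
      constructor <;> intro h <;> linarith
    rw [e3, exp_sub, exp_add_one, mul_div_assoc', div_lt_iff₀ hsh]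
    constructor
    · intro h
      have h1 : (2 * Real.exp θ) * (Real.cosh θ * hh t c z.im) <
          (2 * Real.exp θ) * (Real.sinh θ * σ) := by linarith
      have h2 := lt_of_mul_lt_mul_left h1 (by positivity)
      linarith
    · intro h
      have h1 : (2 * Real.exp θ) * (Real.cosh θ * hh t c z.im) <
          (2 * Real.exp θ) * (Real.sinh θ * σ) := by
        apply mul_lt_mul_of_pos_left _ (by positivity)
        linarith
      linarith
  have hnm : tp z → ((nm z : ℝ) = σ ^ 2 - hh t c z.im ^ 2) := by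
    intro hz
    rw [nm_tp U.disc hz, e1, e2]
    ring
  have hra : 0 < σ → ((σ ^ 2 - hh t c z.im ^ 2 ≤ X) ↔ σ ≤ ra t c X z.im) := by
    intro h0
    unfold ra
    rw [Real.le_sqrt' h0]
    constructor <;> intro h <;> linarith
  have hla : 0 ≤ hh t c z.im → hh t c z.im ≤ la t c θ z.im := by
    intro h0
    unfold la
    exact le_mul_of_one_le_right h0 ((one_le_div hsh).2 hch.le)
  have hh0 : 0 ≤ z.im → 0 ≤ hh t c z.im := by
    intro h0
    have : (0 : ℝ) ≤ z.im := by exact_mod_cast h0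
    unfold hh
    positivity
  rw [U.mem_ball]
  constructor
  · rintro ⟨⟨⟨h1, h2, h3⟩, h4⟩, h5⟩
    have hy := (ang_nonneg_iff U h1).1 h2
    have hh1 := hh0 hy
    have h6 := (hcond hh1).1 ((ang_lt_iff U h1 θ).1 h5)
    have h7 := hla hh1
    have h8 : 0 < σ := by linarith
    refine ⟨hy, h6, ?_⟩
    rw [← hra h8, ← hnm h1]
    exact h4
  · rintro ⟨hy, h6, h9⟩
    have hh1 := hh0 hy
    have h7 := hla hh1
    have h8 : 0 < σ := by linarith
    have h1 : tp z := by
      refine ⟨by rw [e1]; linarith, by rw [e2]; linarith⟩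
    have h5 := (ang_lt_iff U h1 θ).2 ((hcond hh1).2 h6)
    have h10 : θ / rg η ≤ 1 := (div_le_one hR).2 hθR
    have h11 : 2 * Real.pi * (θ / rg η) ≤ 2 * Real.pi := by
      have := Real.pi_pos
      nlinarith
    refine ⟨⟨⟨h1, (ang_nonneg_iff U h1).2 hy, by linarith⟩, ?_⟩, h5⟩
    rw [hnm h1]
    exact (hra h8).2 h9

/-! ### the area -/

/-- length of a row -/
noncomputable def rl (t c : ℤ) (X θ y : ℝ) : ℝ := ra t c X y - la t c θ y

/-- the height of the sector -/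
noncomputable def ym (t c : ℤ) (X θ : ℝ) : ℝ :=
  2 * Real.sqrt X / Real.sqrt ((t : ℝ) ^ 2 - 4 * c) * Real.sinh θ

lemma continuous_rl (X θ : ℝ) : Continuous (rl t c X θ) := by
  unfold rl ra la hh
  fun_prop

lemma antitone_rl (hd : 4 * c < t ^ 2) {X θ : ℝ} (hX : 0 ≤ X) (hθ : 0 < θ) :
    AntitoneOn (rl t c X θ) (Set.Ici 0) := by
  intro x hx y hy hxy
  have hsd := sd_pos hd
  have hsh : 0 < Real.sinh θ := Real.sinh_pos_iff.2 hθ
  have hch : Real.sinh θ < Real.cosh θ := by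
    have := Real.cosh_sub_sinh θ
    have := Real.exp_pos (-θ)
    linarith
  have hco : 1 ≤ Real.cosh θ / Real.sinh θ := (one_le_div hsh).2 hch.le
  have h1 : 0 ≤ hh t c x := by
    unfold hh
    have : 0 ≤ x := hx
    positivity
  have h2 : hh t c x ≤ hh t c y := by
    unfold hh
    gcongr
  unfold rl ra la
  have h3 : Real.sqrt (X + hh t c y ^ 2) ≤ Real.sqrt (X + hh t c x ^ 2) +
      (hh t c y - hh t c x) := by
    rw [Real.sqrt_le_left (by have := Real.sqrt_nonneg (X + hh t c x ^ 2); linarith)]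
    have h4 : hh t c x ≤ Real.sqrt (X + hh t c x ^ 2) := by
      apply Real.le_sqrt_of_sq_le
      linarith
    have h5 := Real.sq_sqrt (show 0 ≤ X + hh t c x ^ 2 by positivity)
    nlinarith
  nlinarith

lemma rl_zero {X θ : ℝ} : rl t c X θ 0 = Real.sqrt X := by
  unfold rl ra la hh
  simp

lemma hh_ym (hd : 4 * c < t ^ 2) (X θ : ℝ) :
    hh t c (2 * Real.sqrt X / Real.sqrt ((t : ℝ) ^ 2 - 4 * c) * Real.sinh θ) =
      Real.sqrt X * Real.sinh θ := by
  have hsd := sd_pos hd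
  unfold hh
  field_simp

lemma ra_ym (hd : 4 * c < t ^ 2) {X : ℝ} (hX : 0 ≤ X) (θ : ℝ) :
    ra t c X (2 * Real.sqrt X / Real.sqrt ((t : ℝ) ^ 2 - 4 * c) * Real.sinh θ) =
      Real.sqrt X * Real.cosh θ := by
  unfold ra
  rw [hh_ym hd]
  have h1 : X + (Real.sqrt X * Real.sinh θ) ^ 2 = (Real.sqrt X * Real.cosh θ) ^ 2 := by
    have h2 := Real.sq_sqrt hX
    have h3 := Real.cosh_sq θ
    rw [mul_pow, mul_pow, h2, h3]
    ring
  rw [h1, Real.sqrt_sq (by have := Real.cosh_pos θ; positivity)]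

lemma rl_ym (hd : 4 * c < t ^ 2) {X θ : ℝ} (hX : 0 ≤ X) (hθ : 0 < θ) :
    rl t c X θ (ym t c X θ) = 0 := by
  have hsh : 0 < Real.sinh θ := Real.sinh_pos_iff.2 hθ
  unfold rl la ym
  rw [ra_ym hd hX, hh_ym hd]
  field_simp
  ring

/-- the area of the sector -/
lemma integral_rl (hd : 4 * c < t ^ 2) {X θ : ℝ} (hX : 0 ≤ X) (hθ : 0 < θ) :
    ∫ y in (0 : ℝ)..ym t c X θ, rl t c X θ y = θ * X / Real.sqrt ((t : ℝ) ^ 2 - 4 * c) := by
  have hsd := sd_pos hd
  have hsh : 0 < Real.sinh θ := Real.sinh_pos_iff.2 hθ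
  set D : ℝ := Real.sqrt ((t : ℝ) ^ 2 - 4 * c) with hD
  set φ : ℝ → ℝ := fun τ => 2 * Real.sqrt X / D * Real.sinh τ with hφ
  have h0 : φ 0 = 0 := by rw [hφ]; simp
  have h1 : φ θ = ym t c X θ := by rw [hφ]; rfl
  rw [← h0, ← h1]
  rw [← intervalIntegral.integral_comp_mul_deriv (f := φ)
    (f' := fun τ => 2 * Real.sqrt X / D * Real.cosh τ) (g := rl t c X θ)
    (fun τ _ => (Real.hasDerivAt_sinh τ).const_mul _)
    (by fun_prop) (continuous_rl X θ)]
  have h2 : ∀ τ : ℝ, (rl t c X θ ∘ φ) τ * (2 * Real.sqrt X / D * Real.cosh τ) =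
      2 * X / D * (Real.cosh τ * (Real.cosh τ - Real.sinh τ * (Real.cosh θ / Real.sinh θ))) := by
    intro τ
    simp only [Function.comp_apply, hφ]
    unfold rl la
    rw [hD, ra_ym hd hX, hh_ym hd, ← hD]
    have h3 := Real.mul_self_sqrt hX
    calc (Real.sqrt X * Real.cosh τ - Real.sqrt X * Real.sinh τ * (Real.cosh θ / Real.sinh θ)) *
        (2 * Real.sqrt X / D * Real.cosh τ) = 2 * (Real.sqrt X * Real.sqrt X) / D *
          (Real.cosh τ * (Real.cosh τ - Real.sinh τ * (Real.cosh θ / Real.sinh θ))) := by ring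
      _ = _ := by rw [h3]
  simp only [h2]
  rw [intervalIntegral.integral_eq_sub_of_hasDerivAt (f := fun τ => 2 * X / D *
    (τ / 2 + Real.sinh τ * Real.cosh τ / 2 - Real.sinh τ ^ 2 / 2 * (Real.cosh θ / Real.sinh θ)))]
  · simp only [Real.sinh_zero, Real.cosh_zero]
    field_simp
    ring
  · intro τ _
    have d1 := Real.hasDerivAt_sinh τ
    have d2 := Real.hasDerivAt_cosh τ
    have d3 := ((((hasDerivAt_id τ).div_const 2).add ((d1.mul d2).div_const 2)).sub
      (((d1.pow 2).div_const 2).mul_const (Real.cosh θ / Real.sinh θ))).const_mul (2 * X / D)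
    refine d3.congr_deriv ?_
    have h4 := Real.cosh_sq τ
    simp only [Nat.cast_ofNat]
    rw [show (2 : ℕ) - 1 = 1 from rfl, pow_one]
    have h5 : Real.sinh τ * Real.sinh τ = Real.cosh τ * Real.cosh τ - 1 := by nlinarith
    linear_combination (2 * X / D) * (1 / 2) * h5
  · apply Continuous.intervalIntegrable
    fun_prop

/-- the positive part of the length of a row -/
noncomputable def rp (t c : ℤ) (X θ y : ℝ) : ℝ := max (rl t c X θ y) 0

lemma antitone_rp (hd : 4 * c < t ^ 2) {X θ : ℝ} (hX : 0 ≤ X) (hθ : 0 < θ) :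
    AntitoneOn (rp t c X θ) (Set.Ici 0) := by
  intro x hx y hy hxy
  exact max_le_max (antitone_rl hd hX hθ hx hy hxy) le_rfl

lemma ym_nonneg {X θ : ℝ} (hθ : 0 < θ) : 0 ≤ ym t c X θ := by
  have hsh : 0 < Real.sinh θ := Real.sinh_pos_iff.2 hθ
  unfold ym
  positivity

lemma rp_of_le (hd : 4 * c < t ^ 2) {X θ y : ℝ} (hX : 0 ≤ X) (hθ : 0 < θ) (hy0 : 0 ≤ y)
    (hy : y ≤ ym t c X θ) : rp t c X θ y = rl t c X θ y := by
  have h := antitone_rl hd hX hθ (Set.mem_Ici.2 hy0) (Set.mem_Ici.2 (ym_nonneg hθ)) hy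
  rw [rl_ym hd hX hθ] at h
  exact max_eq_left h

lemma rp_of_ge (hd : 4 * c < t ^ 2) {X θ y : ℝ} (hX : 0 ≤ X) (hθ : 0 < θ)
    (hy : ym t c X θ ≤ y) : rp t c X θ y = 0 := by
  have h0 := ym_nonneg (t := t) (c := c) (X := X) hθ
  have h := antitone_rl hd hX hθ (Set.mem_Ici.2 h0) (Set.mem_Ici.2 (h0.trans hy)) hy
  rw [rl_ym hd hX hθ] at h
  exact max_eq_right h

lemma continuous_rp (X θ : ℝ) : Continuous (rp t c X θ) := by
  unfold rp
  exact (continuous_rl X θ).max continuous_const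

lemma integral_rp (hd : 4 * c < t ^ 2) {X θ M : ℝ} (hX : 0 ≤ X) (hθ : 0 < θ)
    (hM : ym t c X θ ≤ M) :
    ∫ y in (0 : ℝ)..M, rp t c X θ y = θ * X / Real.sqrt ((t : ℝ) ^ 2 - 4 * c) := by
  have h0 := ym_nonneg (t := t) (c := c) (X := X) hθ
  rw [← intervalIntegral.integral_add_adjacent_intervals
    ((continuous_rp X θ).intervalIntegrable (μ := volume) 0 (ym t c X θ))
    ((continuous_rp X θ).intervalIntegrable (μ := volume) (ym t c X θ) M)]
  have h1 : ∫ y in (0 : ℝ)..ym t c X θ, rp t c X θ y = ∫ y in (0 : ℝ)..ym t c X θ, rl t c X θ y := by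
    apply intervalIntegral.integral_congr
    intro y hy
    rw [Set.uIcc_of_le h0] at hy
    exact rp_of_le hd hX hθ hy.1 hy.2
  have h2 : ∫ y in (ym t c X θ)..M, rp t c X θ y = 0 := by
    have : ∫ y in (ym t c X θ)..M, rp t c X θ y = ∫ y in (ym t c X θ)..M, (0 : ℝ) := by
      apply intervalIntegral.integral_congr
      intro y hy
      rw [Set.uIcc_of_le hM] at hy
      exact rp_of_ge hd hX hθ hy.1
    rw [this]
    simp
  rw [h1, h2, integral_rl hd hX hθ, add_zero]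

lemma sum_rp (hd : 4 * c < t ^ 2) {X θ : ℝ} (hX : 0 ≤ X) (hθ : 0 < θ) (M : ℕ)
    (hM : ym t c X θ ≤ M) :
    |∑ i ∈ range M, rp t c X θ (i : ℝ) - θ * X / Real.sqrt ((t : ℝ) ^ 2 - 4 * c)| ≤
      Real.sqrt X := by
  have hanti : AntitoneOn (rp t c X θ) (Set.Icc (0 : ℝ) (0 + (M : ℝ))) :=
    (antitone_rp hd hX hθ).mono Set.Icc_subset_Ici_self
  have h1 := hanti.sum_le_integral
  have h2 := hanti.integral_le_sum
  rw [zero_add, integral_rp hd hX hθ hM] at h1 h2
  simp only [zero_add] at h1 h2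
  have h3 : ∑ i ∈ range M, rp t c X θ (i : ℝ) ≤
      rp t c X θ 0 + ∑ i ∈ range M, rp t c X θ ((i + 1 : ℕ) : ℝ) := by
    have h4 := Finset.sum_range_succ (fun i : ℕ => rp t c X θ (i : ℝ)) M
    have h5 := Finset.sum_range_succ' (fun i : ℕ => rp t c X θ (i : ℝ)) M
    rw [h4] at h5
    have h6 : 0 ≤ rp t c X θ (M : ℝ) := le_max_right _ _
    simp only [Nat.cast_zero] at h5
    linarith
  have h7 : rp t c X θ 0 = Real.sqrt X := by
    unfold rp
    rw [rl_zero]
    exact max_eq_left (Real.sqrt_nonneg _)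
  rw [abs_le]
  constructor <;> linarith

/-- the sector `ang z < 2π θ / rg η` of a ball, intersected with a lattice -/
noncomputable def sec (η : (Qd t c)ˣ) (X θ : ℝ) (d : ℕ) (r : ℤ) : Finset (Qd t c) :=
  open scoped Classical in
  ((ball η X).filter (lat d r)).filter (fun z => ang η z < 2 * Real.pi * (θ / rg η))

lemma mem_sec (U : Un t c η) {X θ : ℝ} (hθ : 0 < θ) (hθR : θ ≤ rg η) (d : ℕ) (r : ℤ)
    (z : Qd t c) : z ∈ sec η X θ d r ↔ (d : ℤ) ∣ z.re + r * z.im ∧
      0 ≤ z.im ∧ la t c θ z.im < z.re + t * z.im / 2 ∧ z.re + t * z.im / 2 ≤ ra t c X z.im := by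
  rw [← mem_sector U hθ hθR]
  unfold sec
  rw [mem_filter, mem_filter]
  unfold Pool.Agent.W78.GA.lat
  tauto

lemma count_rows (U : Un t c η) {X θ : ℝ} (hX : 0 ≤ X) (hθ : 0 < θ) (hθR : θ ≤ rg η) (d : ℕ)
    (r : ℤ) (M : ℕ) (hM : ym t c X θ ≤ M) :
    (sec η X θ d r).card = ∑ y ∈ range M,
      ((Ioc ⌊la t c θ (y : ℝ) - t * (y : ℝ) / 2⌋ ⌊ra t c X (y : ℝ) - t * (y : ℝ) / 2⌋).filter
        (fun x : ℤ => (d : ℤ) ∣ x + r * (y : ℤ))).card := by
  have hmaps : ∀ z ∈ sec η X θ d r, z.im.toNat ∈ range M := by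
    intro z hz
    rw [mem_sec U hθ hθR] at hz
    obtain ⟨-, h1, h2, h3⟩ := hz
    rw [mem_range]
    by_contra h4
    push Not at h4
    have h5 : (M : ℝ) ≤ z.im := by
      have : (M : ℤ) ≤ z.im := by omega
      exact_mod_cast this
    have h6 := rp_of_ge U.disc hX hθ (hM.trans h5)
    have h7 : rl t c X θ z.im ≤ 0 := by
      rw [← h6]
      exact le_max_left _ _
    unfold rl at h7
    linarith
  rw [Finset.card_eq_sum_card_fiberwise hmaps]
  refine Finset.sum_congr rfl fun y _ => ?_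
  refine Finset.card_bij (fun z _ => z.re) ?_ ?_ ?_
  · intro z hz
    rw [mem_filter, mem_sec U hθ hθR] at hz
    obtain ⟨⟨h0, h1, h2, h3⟩, h4⟩ := hz
    have h5 : z.im = (y : ℤ) := by omega
    have h6 : (z.im : ℝ) = (y : ℝ) := by rw [h5]; simp
    rw [h6] at h2 h3
    rw [h5] at h0
    rw [mem_filter, mem_Ioc, Int.floor_lt, Int.le_floor]
    exact ⟨⟨by linarith, by linarith⟩, h0⟩
  · intro z hz u hu h
    rw [mem_filter, mem_sec U hθ hθR] at hz hu
    refine QuadraticAlgebra.ext h ?_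
    have := hz.1.2.1
    have := hu.1.2.1
    have := hz.2
    have := hu.2
    omega
  · intro x hx
    rw [mem_filter, mem_Ioc, Int.floor_lt, Int.le_floor] at hx
    refine ⟨⟨x, y⟩, ?_, rfl⟩
    rw [mem_filter, mem_sec U hθ hθR]
    refine ⟨⟨hx.2, ?_, ?_, ?_⟩, ?_⟩
    · simp
    · simp only [Int.cast_natCast]
      linarith [hx.1.1]
    · simp only [Int.cast_natCast]
      linarith [hx.1.2]
    · simp

/-- **Lattice points in sectors.** -/
theorem card_sec (U : Un t c η) {X θ : ℝ} (hX : 1 ≤ X) (hθ : 0 < θ) (hθR : θ ≤ rg η) (d : ℕ)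
    (r : ℤ) (hd : 1 ≤ d) :
    |((sec η X θ d r).card : ℝ) - θ / Real.sqrt ((t : ℝ) ^ 2 - 4 * c) * X / d| ≤
      (Real.sinh (rg η) + 2) * Real.sqrt X := by
  have hX0 : 0 ≤ X := by linarith
  have hd0 : (1 : ℝ) ≤ d := by exact_mod_cast hd
  have hs : 1 ≤ Real.sqrt X := by rwa [Real.one_le_sqrt]
  have hy0 := ym_nonneg (t := t) (c := c) (X := X) hθ
  set M : ℕ := ⌊ym t c X θ⌋₊ + 1 with hMdef
  have hM : ym t c X θ ≤ M := by
    rw [hMdef]
    push_cast
    exact (Nat.lt_floor_add_one _).le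
  have hM2 : (M : ℝ) ≤ (Real.sinh (rg η) + 1) * Real.sqrt X := by
    have h1 : (M : ℝ) ≤ ym t c X θ + 1 := by
      rw [hMdef]
      push_cast
      have := Nat.floor_le hy0
      linarith
    have hq : 2 ≤ Real.sqrt ((t : ℝ) ^ 2 - 4 * c) := by
      apply Real.le_sqrt_of_sq_le
      have := U.five_le
      linarith
    have h2 : ym t c X θ ≤ Real.sqrt X * Real.sinh (rg η) := by
      unfold ym
      have h3 : Real.sinh θ ≤ Real.sinh (rg η) := Real.sinh_le_sinh.2 hθR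
      have h4 : 0 < Real.sinh θ := Real.sinh_pos_iff.2 hθ
      have h5 : 2 * Real.sqrt X / Real.sqrt ((t : ℝ) ^ 2 - 4 * c) ≤ Real.sqrt X := by
        rw [div_le_iff₀ (by linarith)]
        nlinarith
      exact mul_le_mul h5 h3 h4.le (by linarith)
    linarith
  have hcard : ((sec η X θ d r).card : ℝ) = ∑ y ∈ range M,
      ((((Ioc ⌊la t c θ (y : ℝ) - t * (y : ℝ) / 2⌋ ⌊ra t c X (y : ℝ) - t * (y : ℝ) / 2⌋).filter
        (fun x : ℤ => (d : ℤ) ∣ x + r * (y : ℤ))).card : ℕ) : ℝ) := by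
    exact_mod_cast count_rows U hX0 hθ hθR d r M hM
  have h2 : |((sec η X θ d r).card : ℝ) - (∑ y ∈ range M, rp t c X θ (y : ℝ)) / d| ≤ M := by
    rw [hcard, Finset.sum_div, ← Finset.sum_sub_distrib]
    refine (Finset.abs_sum_le_sum_abs _ _).trans ?_
    refine (Finset.sum_le_card_nsmul _ _ 1 ?_).trans ?_
    · intro y _
      have h3 := row_card (la t c θ (y : ℝ) - t * (y : ℝ) / 2) (ra t c X (y : ℝ) - t * (y : ℝ) / 2)
        d hd (r * (y : ℤ))
      have h4 : ra t c X (y : ℝ) - t * (y : ℝ) / 2 - (la t c θ (y : ℝ) - t * (y : ℝ) / 2) =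
          rl t c X θ (y : ℝ) := by
        unfold rl
        ring
      rw [h4] at h3
      exact h3
    · rw [card_range, nsmul_eq_mul, mul_one]
  have h3 := sum_rp U.disc hX0 hθ M hM
  set S : ℝ := ∑ y ∈ range M, rp t c X θ (y : ℝ) with hS
  have h4 : |S / d - θ / Real.sqrt ((t : ℝ) ^ 2 - 4 * c) * X / d| ≤ Real.sqrt X := by
    rw [← sub_div, abs_div, abs_of_pos (by linarith : (0 : ℝ) < d), div_le_iff₀ (by linarith)]
    have h5 : θ / Real.sqrt ((t : ℝ) ^ 2 - 4 * c) * X =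
        θ * X / Real.sqrt ((t : ℝ) ^ 2 - 4 * c) := by ring
    rw [h5]
    refine h3.trans ?_
    nlinarith
  rw [abs_le] at h2 h4 ⊢
  constructor <;> linarith [h2.1, h2.2, h4.1, h4.2]

end Pool.Agent.W398.GR
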